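import Pool.Agent.Y472.K.DefsX
import Pool.Agent.W571.FE.EM
import Pool.Agent.W571.FE.GP
import Pool.Agent.H776R3.GapVol.Sine

/-!
# The Turk's head links: expansion of the products of sines to all orders (`S_SDX`)

The facts about `Lc` are proved as in `Pool/Agent/Y988/TK/Vol.lean`.
-/

set_option autoImplicit false

namespace Pool.Agent.Y297.TKX

open Finset Filter Topology MeasureTheory Pool.Agent.W711.HT Pool.Agent.W707.FE
open Pool.Agent.Y472.K (Lc)
open scoped Real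

section real

theorem ii_log (a b : ℝ) :
    IntervalIntegrable (fun t => Real.log (2 * Real.sin (π * t))) volume a b := by
  have h : AnalyticOnNhd ℝ (fun t : ℝ => 2 * Real.sin (π * t)) (Set.uIcc a b) := by
    intro x _
    fun_prop
  exact h.meromorphicOn.intervalIntegrable_log

theorem Lc_sub (a b : ℝ) : ∫ t in a..b, Real.log (2 * Real.sin (π * t)) = Lc a - Lc b := by
  unfold Lc
  rw [← intervalIntegral.integral_interval_sub_left (ii_log 0 b) (ii_log 0 a)]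
  ring

theorem Lc_half : Lc (1 / 2) = 0 := by
  unfold Lc
  have h1 := intervalIntegral.integral_comp_mul_left (a := 0) (b := 1 / 2)
    (fun u => Real.log (2 * Real.sin u)) Real.pi_ne_zero
  rw [h1, mul_zero]
  have h2 : ∫ u in (0 : ℝ)..(π * (1 / 2)), Real.log (2 * Real.sin u) =
      ∫ u in (0 : ℝ)..(π * (1 / 2)), (Real.log 2 + Real.log (Real.sin u)) := by
    refine intervalIntegral.integral_congr_ae (Filter.Eventually.of_forall fun u hu => ?_)
    rw [Set.uIoc_of_le (by positivity)] at hu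
    have h3 : 0 < Real.sin u :=
      Real.sin_pos_of_pos_of_lt_pi hu.1 (by linarith [hu.2, Real.pi_pos])
    rw [Real.log_mul (by norm_num) h3.ne']
  have h4 : IntervalIntegrable (fun u => Real.log (Real.sin u)) volume 0 (π * (1 / 2)) :=
    intervalIntegrable_log_sin
  rw [h2, intervalIntegral.integral_add intervalIntegrable_const h4, intervalIntegral.integral_const]
  have h5 : π * (1 / 2) = π / 2 := by ring
  rw [h5, integral_log_sin_zero_pi_div_two, smul_eq_mul, smul_eq_mul]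
  ring

theorem Lc_refl (x : ℝ) : Lc (1 - x) = - Lc x := by
  have h1 := intervalIntegral.integral_comp_sub_left (a := 1 / 2) (b := x)
    (fun t => Real.log (2 * Real.sin (π * t))) 1
  have h2 : ∀ t : ℝ, Real.log (2 * Real.sin (π * (1 - t))) = Real.log (2 * Real.sin (π * t)) := by
    intro t
    have : π * (1 - t) = π - π * t := by ring
    rw [this, Real.sin_pi_sub]
  simp only [h2] at h1
  rw [Lc_sub, Lc_sub, show (1 : ℝ) - 1 / 2 = 1 / 2 by norm_num, Lc_half] at h1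
  linarith

end real

/-! ### Holomorphic functions on the strip -/

/-- `log (2 sin (π w))` -/
noncomputable def F (w : ℂ) : ℂ := Gf (2 * π * (w - 1 / 2))

/-- minus the primitive of `F` which vanishes at `1 / 2` -/
noncomputable def Lx (w : ℂ) : ℂ := -(2 * π : ℂ)⁻¹ * Pf (2 * π * (w - 1 / 2))

/-- the strip -/
def U : Set ℂ := {w | 0 < w.re ∧ w.re < 1}

theorem isOpen_U : IsOpen U :=
  (isOpen_lt continuous_const Complex.continuous_re).inter
    (isOpen_lt Complex.continuous_re continuous_const)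

theorem real_mem_U {x : ℝ} (h0 : 0 < x) (h1 : x < 1) : (x : ℂ) ∈ U := ⟨h0, h1⟩

theorem mem_Uf {w : ℂ} (hw : w ∈ U) : 2 * π * (w - 1 / 2) ∈ Uf := by
  right
  show |(2 * (π : ℂ) * (w - 1 / 2)).re| < π
  have h : (2 * (π : ℂ) * (w - 1 / 2)).re = 2 * π * (w.re - 1 / 2) := by
    have e : (2 * (π : ℂ) * (w - 1 / 2)) = ((2 * π : ℝ) : ℂ) * (w - ((1 / 2 : ℝ) : ℂ)) := by
      push_cast
      ring
    rw [e, Complex.re_ofReal_mul, Complex.sub_re, Complex.ofReal_re]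
  have hpi := Real.pi_pos
  obtain ⟨h0, h1⟩ := hw
  rw [h, abs_lt]
  constructor <;> nlinarith

theorem lin_deriv (w : ℂ) : HasDerivAt (fun w : ℂ => 2 * (π : ℂ) * (w - 1 / 2)) (2 * π) w := by
  have h := ((hasDerivAt_id w).sub_const (1 / 2)).const_mul (2 * (π : ℂ))
  rw [mul_one] at h
  exact h

theorem F_diff {w : ℂ} (hw : w ∈ U) : DifferentiableAt ℂ F w := by
  have h := (Pool.Agent.W571.FE.gp.2.1).differentiableAt
    (Pool.Agent.W571.FE.gp.1.mem_nhds (mem_Uf hw))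
  exact h.comp w (lin_deriv w).differentiableAt

theorem Lx_deriv {w : ℂ} (hw : w ∈ U) : HasDerivAt Lx (-F w) w := by
  have hpi : (π : ℂ) ≠ 0 := by exact_mod_cast Real.pi_ne_zero
  have h := (Pool.Agent.W571.FE.gp.2.2.1 _ (mem_Uf hw)).comp w (lin_deriv w)
  have h2 := h.const_mul (-(2 * π : ℂ)⁻¹)
  refine h2.congr_deriv ?_
  unfold F
  field_simp

theorem F_real {x : ℝ} (h0 : 0 < x) (h1 : x < 1) :
    F x = ((Real.log (2 * Real.sin (π * x)) : ℝ) : ℂ) := by
  have hpi := Real.pi_pos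
  have e : (2 * (π : ℂ) * ((x : ℂ) - 1 / 2)) = ((2 * π * (x - 1 / 2) : ℝ) : ℂ) := by
    push_cast
    ring
  unfold F
  rw [e, Pool.Agent.W571.FE.gp.2.2.2.2.2.2.2 _ (by
    rw [abs_lt]
    constructor <;> nlinarith)]
  rw [show 2 * π * (x - 1 / 2) / 2 = π * x - π / 2 by ring, Real.cos_sub_pi_div_two]

theorem F_ana {w : ℂ} (hw : w ∈ U) : AnalyticAt ℂ F w := by
  have h : DifferentiableOn ℂ F U := fun z hz => (F_diff hz).differentiableWithinAt
  exact h.analyticAt (isOpen_U.mem_nhds hw)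

theorem Lx_ana {w : ℂ} (hw : w ∈ U) : AnalyticAt ℂ Lx w := by
  have h : DifferentiableOn ℂ Lx U := fun z hz => (Lx_deriv hz).differentiableAt.differentiableWithinAt
  exact h.analyticAt (isOpen_U.mem_nhds hw)

/-- the integral of `F` along a real interval -/
theorem int_F {a b : ℝ} (ha0 : 0 < a) (ha1 : a < 1) (hb0 : 0 < b) (hb1 : b < 1) :
    ∫ x in a..b, F x = Lx a - Lx b := by
  have hsub : ∀ x ∈ Set.uIcc a b, (x : ℂ) ∈ U := by
    intro x hx
    obtain ⟨h1, h2⟩ := Set.mem_uIcc.1 hx |>.elim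
      (fun h => (⟨lt_of_lt_of_le ha0 h.1, lt_of_le_of_lt h.2 hb1⟩ : 0 < x ∧ x < 1))
      (fun h => ⟨lt_of_lt_of_le hb0 h.1, lt_of_le_of_lt h.2 ha1⟩)
    exact real_mem_U h1 h2
  have h1 : ∀ x ∈ Set.uIcc a b, HasDerivAt (fun t : ℝ => -Lx t) (F x) x := by
    intro x hx
    have h := (Lx_deriv (hsub x hx)).comp_ofReal.neg
    rw [neg_neg] at h
    exact h
  have h2 : IntervalIntegrable (fun x : ℝ => F x) volume a b := by
    refine ContinuousOn.intervalIntegrable fun x hx => ?_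
    have h3 : ContinuousAt (fun x : ℝ => F x) x :=
      (F_diff (hsub x hx)).continuousAt.comp Complex.continuous_ofReal.continuousAt
    exact h3.continuousWithinAt
  rw [intervalIntegral.integral_eq_sub_of_hasDerivAt h1 h2]
  ring

theorem Lx_half : Lx ((1 / 2 : ℝ) : ℂ) = 0 := by
  unfold Lx Pf
  have e : (2 * (π : ℂ) * ((((1 / 2 : ℝ) : ℝ) : ℂ) - 1 / 2)) = 0 := by
    push_cast
    ring
  rw [e]
  simp

theorem Lx_real {x : ℝ} (h0 : 0 < x) (h1 : x < 1) : Lx x = (Lc x : ℂ) := by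
  have hh := int_F (a := 1 / 2) (b := x) (by norm_num) (by norm_num) h0 h1
  have h2 : ∫ t in (1 / 2 : ℝ)..x, F t =
      ∫ t in (1 / 2 : ℝ)..x, ((Real.log (2 * Real.sin (π * t)) : ℝ) : ℂ) := by
    refine intervalIntegral.integral_congr fun t ht => ?_
    obtain ⟨h3, h4⟩ := Set.mem_uIcc.1 ht |>.elim
      (fun h => (⟨by linarith [h.1], lt_of_le_of_lt h.2 h1⟩ : 0 < t ∧ t < 1))
      (fun h => ⟨lt_of_lt_of_le h0 h.1, by linarith [h.2]⟩)
    exact F_real h3 h4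
  rw [h2, intervalIntegral.integral_ofReal, Lc_sub, Lc_half, Lx_half] at hh
  push_cast at hh
  linear_combination hh

/-! ### Expansions -/

/-- Euler-Maclaurin for the sums of logarithms of sines away from the ends -/
theorem key (b : ℕ → ℝ) (hb : ∀ K : ℕ, ∃ C : ℝ, 0 ≤ C ∧
    ∀ (F : ℂ → ℂ) (z : ℂ) (n : ℕ) (ε σ B : ℝ), 0 < ε → 4 * ε ≤ σ →
    (∀ x : ℝ, 0 ≤ x → x ≤ n * ε → ∀ w : ℂ, ‖w - (z + x)‖ < σ →
      DifferentiableAt ℂ F w ∧ ‖F w‖ ≤ B) →
    ‖(∑ j ∈ Finset.range n, F (z + ε * (j + (1 : ℝ)))) -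
      (ε : ℂ)⁻¹ * (∫ x in (0:ℝ)..(n * ε), F (z + x)) -
      ∑ k ∈ Finset.range K, (b k : ℂ) * (ε : ℂ) ^ k *
        (iteratedDeriv k F (z + n * ε) - iteratedDeriv k F z)‖ ≤ C * (n * B * (ε / σ) ^ (K + 1)))
    (δ₀ : ℝ) (h0 : 0 < δ₀) (h1 : δ₀ < 1 / 2) (K : ℕ) : ∃ C : ℝ, 0 ≤ C ∧ ∀ N : ℕ, 8 / δ₀ ≤ N →
    ∀ p q : ℕ, p ≤ q → δ₀ * N ≤ p → (q : ℝ) ≤ (1 - δ₀) * N →
    ‖((GapVol.L N q - GapVol.L N p : ℝ) : ℂ) - N * (Lx ((p : ℂ) / N) - Lx ((q : ℂ) / N)) -
      ∑ k ∈ range K, (b k : ℂ) / (N : ℂ) ^ k *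
        (iteratedDeriv k F ((q : ℂ) / N) - iteratedDeriv k F ((p : ℂ) / N))‖ ≤ C / (N : ℝ) ^ K := by
  obtain ⟨C, hC0, hC⟩ := hb K
  -- the bound of `F`
  have hcomp : IsCompact (Set.Icc (δ₀ / 2) (1 - δ₀ / 2) ×ℂ Set.Icc (-1 : ℝ) 1) :=
    isCompact_Icc.reProdIm isCompact_Icc
  obtain ⟨B, hB⟩ := hcomp.exists_bound_of_continuousOn (f := F) (fun w hw => by
    rw [Complex.mem_reProdIm] at hw
    exact (F_diff ⟨lt_of_lt_of_le (by linarith) hw.1.1,
      lt_of_le_of_lt hw.1.2 (by linarith)⟩).continuousAt.continuousWithinAt)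
  have hB0 : 0 ≤ B := (norm_nonneg _).trans (hB ((1 / 2 : ℝ) : ℂ) (by
    rw [Complex.mem_reProdIm, Complex.ofReal_re, Complex.ofReal_im]
    exact ⟨⟨by linarith, by linarith⟩, by norm_num, by norm_num⟩))
  refine ⟨C * (B / (δ₀ / 2) ^ (K + 1)), by positivity, ?_⟩
  intro N hN p q hpq hp hq
  have hNpos : (0 : ℝ) < N := lt_of_lt_of_le (by positivity) hN
  have hNne : (N : ℝ) ≠ 0 := hNpos.ne'
  have hNc : (N : ℂ) ≠ 0 := by exact_mod_cast hNne
  have hpqR : (p : ℝ) ≤ q := by exact_mod_cast hpq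
  have hcast : ((q - p : ℕ) : ℝ) = (q : ℝ) - p := Nat.cast_sub hpq
  have hcastC : ((q - p : ℕ) : ℂ) = (q : ℂ) - p := Nat.cast_sub hpq
  have h := hC F ((p : ℂ) / N) (q - p) (1 / N) (δ₀ / 2) B (by positivity) (by
      rw [div_le_iff₀ h0] at hN
      rw [mul_one_div, div_le_iff₀ hNpos]
      linarith) (by
    intro x hx0 hx1 w hw
    have hx2 : (p : ℝ) / N + x ≤ q / N := by
      rw [hcast] at hx1
      have : ((q : ℝ) - p) * (1 / N) = q / N - p / N := by ring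
      linarith
    have hp2 : δ₀ ≤ (p : ℝ) / N := by rw [le_div_iff₀ hNpos]; exact hp
    have hq2 : (q : ℝ) / N ≤ 1 - δ₀ := by rw [div_le_iff₀ hNpos]; exact hq
    have e : (p : ℂ) / N + x = (((p : ℝ) / N + x : ℝ) : ℂ) := by push_cast; ring
    rw [e] at hw
    have hre := (Complex.abs_re_le_norm (w - (((p : ℝ) / N + x : ℝ) : ℂ))).trans_lt hw
    have him := (Complex.abs_im_le_norm (w - (((p : ℝ) / N + x : ℝ) : ℂ))).trans_lt hw
    rw [Complex.sub_re, Complex.ofReal_re, abs_lt] at hre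
    rw [Complex.sub_im, Complex.ofReal_im, sub_zero, abs_lt] at him
    refine ⟨F_diff ⟨by linarith [hre.1], by linarith [hre.2]⟩, hB w ?_⟩
    rw [Complex.mem_reProdIm]
    exact ⟨⟨by linarith [hre.1], by linarith [hre.2]⟩, by linarith [him.1], by linarith [him.2]⟩)
  -- the sum
  have hsum : ((GapVol.L N q - GapVol.L N p : ℝ) : ℂ) =
      ∑ j ∈ Finset.range (q - p), F ((p : ℂ) / N + ((1 / N : ℝ) : ℂ) * (j + ((1 : ℝ) : ℂ))) := by
    have e1 : GapVol.L N q = GapVol.L N p +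
        ∑ j ∈ range (q - p), GapVol.lf N (p + j + 1) := by
      unfold GapVol.L
      conv_lhs => rw [show q = p + (q - p) by omega, Finset.sum_range_add]
    rw [e1, add_sub_cancel_left, Complex.ofReal_sum]
    refine Finset.sum_congr rfl fun j hj => ?_
    rw [Finset.mem_range] at hj
    have hjR : ((p + j + 1 : ℕ) : ℝ) ≤ q := by
      have : p + j + 1 ≤ q := by omega
      exact_mod_cast this
    have hx0 : 0 < ((p + j + 1 : ℕ) : ℝ) / N := by positivity
    have hx1 : ((p + j + 1 : ℕ) : ℝ) / N < 1 := by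
      rw [div_lt_one hNpos]
      nlinarith
    have e2 : (p : ℂ) / N + ((1 / N : ℝ) : ℂ) * (j + ((1 : ℝ) : ℂ)) =
        ((((p + j + 1 : ℕ) : ℝ) / N : ℝ) : ℂ) := by
      push_cast
      ring
    rw [e2, F_real hx0 hx1]
    unfold GapVol.lf
    rw [mul_div_assoc]
  -- the integral
  have hp0 : 0 < (p : ℝ) / N := lt_of_lt_of_le h0 (by rw [le_div_iff₀ hNpos]; exact hp)
  have hq1 : (q : ℝ) / N < 1 := by
    rw [div_lt_one hNpos]
    nlinarith
  have hpq2 : (p : ℝ) / N ≤ q / N := div_le_div_of_nonneg_right hpqR hNpos.le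
  have hint : (((1 / N : ℝ) : ℂ))⁻¹ *
      (∫ x in (0 : ℝ)..(((q - p : ℕ) : ℝ) * (1 / N)), F ((p : ℂ) / N + x)) =
      N * (Lx ((p : ℂ) / N) - Lx ((q : ℂ) / N)) := by
    have e1 : ∫ x in (0 : ℝ)..(((q - p : ℕ) : ℝ) * (1 / N)), F ((p : ℂ) / N + x) =
        ∫ x in ((p : ℝ) / N)..((q : ℝ) / N), F x := by
      have e2 := intervalIntegral.integral_comp_add_left (a := 0)
        (b := ((q - p : ℕ) : ℝ) * (1 / N)) (fun x : ℝ => F x) ((p : ℝ) / N)
      have e3 : (p : ℝ) / N + ((q - p : ℕ) : ℝ) * (1 / N) = q / N := by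
        rw [hcast]; ring
      rw [add_zero, e3] at e2
      rw [← e2]
      refine intervalIntegral.integral_congr fun x _ => ?_
      show F ((p : ℂ) / N + x) = F (((p : ℝ) / N + x : ℝ) : ℂ)
      push_cast
      rfl
    rw [e1, int_F hp0 (lt_of_le_of_lt hpq2 hq1) (lt_of_lt_of_le hp0 hpq2) hq1]
    push_cast
    rw [one_div, inv_inv]
  have hz : (p : ℂ) / N + ((q - p : ℕ) : ℂ) * ((1 / N : ℝ) : ℂ) = (q : ℂ) / N := by
    rw [hcastC]; push_cast; ring
  rw [← hsum, hint, hz] at h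
  have hder : ∀ k : ℕ, (b k : ℂ) * ((1 / N : ℝ) : ℂ) ^ k = (b k : ℂ) / (N : ℂ) ^ k := by
    intro k
    push_cast
    rw [one_div, inv_pow]
    rfl
  simp only [hder] at h
  refine h.trans ?_
  have hn : ((q - p : ℕ) : ℝ) ≤ N := by
    rw [hcast]
    have : (0 : ℝ) ≤ p := Nat.cast_nonneg _
    nlinarith
  have e5 : (1 / (N : ℝ) / (δ₀ / 2)) ^ (K + 1) = 1 / (N : ℝ) ^ (K + 1) / (δ₀ / 2) ^ (K + 1) := by
    rw [div_pow, div_pow, one_pow]
  calc C * (((q - p : ℕ) : ℝ) * B * (1 / (N : ℝ) / (δ₀ / 2)) ^ (K + 1))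
      ≤ C * (N * B * (1 / (N : ℝ) / (δ₀ / 2)) ^ (K + 1)) := by
        refine mul_le_mul_of_nonneg_left ?_ hC0
        exact mul_le_mul_of_nonneg_right (mul_le_mul_of_nonneg_right hn hB0) (by positivity)
    _ = C * (B / (δ₀ / 2) ^ (K + 1)) / (N : ℝ) ^ K := by
        rw [e5, pow_succ (N : ℝ) K]
        field_simp

/-- the coefficients -/
noncomputable def sg (b : ℕ → ℝ) (k : ℕ) (z : ℂ) : ℂ :=
  -(1 / 2) * ((b k : ℂ) * (iteratedDeriv k F z - iteratedDeriv k F (1 - z)) +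
    if k = 0 then F z else 0)

theorem iter_ana (k : ℕ) {w : ℂ} (hw : w ∈ U) : AnalyticAt ℂ (iteratedDeriv k F) w := by
  rw [iteratedDeriv_eq_iterate]
  exact (F_ana hw).iterated_deriv k

theorem sg_ana (b : ℕ → ℝ) (k : ℕ) {w : ℂ} (hw : w ∈ U) : AnalyticAt ℂ (sg b k) w := by
  have hw' : 1 - w ∈ U := by
    obtain ⟨h0, h1⟩ := hw
    refine ⟨?_, ?_⟩
    · rw [Complex.sub_re, Complex.one_re]; linarith
    · rw [Complex.sub_re, Complex.one_re]; linarith
  have h1 : AnalyticAt ℂ (fun z : ℂ => iteratedDeriv k F (1 - z)) w :=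
    (iter_ana k hw').comp_of_eq (analyticAt_const.sub analyticAt_id) rfl
  unfold sg
  refine analyticAt_const.mul ((analyticAt_const.mul ((iter_ana k hw).sub h1)).add ?_)
  by_cases hk : k = 0
  · simp only [hk, if_true]
    exact F_ana hw
  · simp only [hk, if_false]
    exact analyticAt_const

theorem Sd_eq {N m : ℕ} (hm : m < N) : Sd N m = Real.exp (GapVol.L N m) := by
  unfold Sd GapVol.L
  rw [Real.exp_sum]
  refine Finset.prod_congr rfl fun j hj => ?_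
  rw [Finset.mem_range] at hj
  have h1 := GapVol.sin_pos_of (M := N) (j := j + 1) (by omega) (by omega)
  unfold GapVol.lf
  rw [Real.exp_log (by positivity)]
  push_cast
  rfl

/-- the expansion with at least one coefficient -/
theorem expo (b : ℕ → ℝ) (δ₀ : ℝ) (h0 : 0 < δ₀) (h1 : δ₀ < 1 / 2) (K : ℕ)
    (hkey : ∃ C : ℝ, 0 ≤ C ∧ ∀ N : ℕ, 8 / δ₀ ≤ N →
    ∀ p q : ℕ, p ≤ q → δ₀ * N ≤ p → (q : ℝ) ≤ (1 - δ₀) * N →
    ‖((GapVol.L N q - GapVol.L N p : ℝ) : ℂ) - N * (Lx ((p : ℂ) / N) - Lx ((q : ℂ) / N)) -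
      ∑ k ∈ range (K + 1), (b k : ℂ) / (N : ℂ) ^ k *
        (iteratedDeriv k F ((q : ℂ) / N) - iteratedDeriv k F ((p : ℂ) / N))‖ ≤
        C / (N : ℝ) ^ (K + 1)) :
    ∃ C : ℝ, ∀ N : ℕ, 8 / δ₀ ≤ N → ∀ m : ℕ,
    δ₀ * N ≤ m → (m : ℝ) ≤ (1 - δ₀) * N → ∃ e : ℂ, ‖e‖ ≤ C / (N : ℝ) ^ (K + 1) ∧
      ((√(N : ℝ) : ℝ) : ℂ) / (Sd N m : ℂ) =
        Complex.exp (N * Lx ((m : ℂ) / N) + ∑ k ∈ range (K + 1), sg b k ((m : ℂ) / N) / (N : ℂ) ^ k
          + e) := by
  obtain ⟨C, hC0, hC⟩ := hkey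
  refine ⟨C, fun N hN m hm hm' => ?_⟩
  have hNpos : (0 : ℝ) < N := lt_of_lt_of_le (by positivity) hN
  have hNc : (N : ℂ) ≠ 0 := by exact_mod_cast hNpos.ne'
  have hmN : m < N := by
    have : (m : ℝ) < N := by nlinarith
    exact_mod_cast this
  have hm1 : 1 ≤ m := by
    have : (0 : ℝ) < m := lt_of_lt_of_le (by positivity) hm
    exact_mod_cast this
  have hN1 : 1 ≤ N := by omega
  set δ : ℂ := (m : ℂ) / N with hδ
  have hd0 : 0 < (m : ℝ) / N := by positivity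
  have hd1 : (m : ℝ) / N < 1 := by rw [div_lt_one hNpos]; exact_mod_cast hmN
  have hδr : δ = (((m : ℝ) / N : ℝ) : ℂ) := by rw [hδ]; push_cast; rfl
  have hcast : ((N - m : ℕ) : ℝ) = (N : ℝ) - m := Nat.cast_sub hmN.le
  have hdC : ((N - m : ℕ) : ℂ) / N = 1 - δ := by
    rw [Nat.cast_sub hmN.le, hδ, sub_div, div_self hNc]
  -- the symmetric difference
  set D : ℝ := GapVol.L N m - GapVol.L N (N - m) with hD
  have hDest : ‖((D : ℝ) : ℂ) - N * (Lx (1 - δ) - Lx δ) -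
      ∑ k ∈ range (K + 1), (b k : ℂ) / (N : ℂ) ^ k *
        (iteratedDeriv k F δ - iteratedDeriv k F (1 - δ))‖ ≤ C / (N : ℝ) ^ (K + 1) := by
    have hlow : δ₀ * N ≤ ((N - m : ℕ) : ℝ) := by rw [hcast]; linarith
    have hup : ((N - m : ℕ) : ℝ) ≤ (1 - δ₀) * N := by rw [hcast]; linarith
    rcases le_total (N - m) m with hle | hle
    · have h := hC N hN (N - m) m hle hlow hm'
      rw [hdC, ← hδ] at h
      exact h
    · have h := hC N hN m (N - m) hle hm hup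
      rw [hdC, ← hδ] at h
      rw [← norm_neg]
      refine le_of_eq_of_le ?_ h
      congr 1
      have e1 : ∑ k ∈ range (K + 1), (b k : ℂ) / (N : ℂ) ^ k *
          (iteratedDeriv k F (1 - δ) - iteratedDeriv k F δ) =
          -∑ k ∈ range (K + 1), (b k : ℂ) / (N : ℂ) ^ k *
          (iteratedDeriv k F δ - iteratedDeriv k F (1 - δ)) := by
        rw [← Finset.sum_neg_distrib]
        exact Finset.sum_congr rfl fun k _ => by ring
      rw [e1, hD]
      push_cast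
      ring
  -- reflection
  have hrefl : 2 * GapVol.L N m = Real.log N + GapVol.lf N m + D := by
    have h2 := GapVol.L_reflect (M := N) (k := m) (by omega) hN1
    have h3 : GapVol.L N (N - m) = GapVol.L N (N - 1 - m) + GapVol.lf N m := by
      have h4 := GapVol.L_succ N (N - 1 - m)
      rw [show N - 1 - m + 1 = N - m by omega] at h4
      rw [h4, GapVol.lf_symm hmN.le (by omega)]
    rw [hD, h3]
    linarith
  have hlhs : ((√(N : ℝ) : ℝ) : ℂ) / (Sd N m : ℂ) =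
      Complex.exp (-(1 / 2) * (((GapVol.lf N m : ℝ) : ℂ) + (D : ℂ))) := by
    have h2 : √(N : ℝ) = Real.exp (Real.log N / 2) := by
      rw [Real.exp_half, Real.exp_log hNpos]
    rw [Sd_eq hmN, h2, ← Complex.ofReal_div, ← Real.exp_sub, Complex.ofReal_exp]
    congr 1
    have h3 : Real.log N / 2 - GapVol.L N m = -(1 / 2) * (GapVol.lf N m + D) := by linarith
    rw [h3]
    push_cast
    ring
  have hlf : ((GapVol.lf N m : ℝ) : ℂ) = F δ := by
    rw [hδr, F_real hd0 hd1]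
    unfold GapVol.lf
    rw [mul_div_assoc]
  have hLr : Lx (1 - δ) = -Lx δ := by
    have e1 : (1 : ℂ) - δ = ((1 - (m : ℝ) / N : ℝ) : ℂ) := by rw [hδr]; push_cast; rfl
    rw [e1, Lx_real (by linarith) (by linarith), hδr, Lx_real hd0 hd1, Lc_refl]
    push_cast
    rfl
  set R : ℂ := ((D : ℝ) : ℂ) - N * (Lx (1 - δ) - Lx δ) -
      ∑ k ∈ range (K + 1), (b k : ℂ) / (N : ℂ) ^ k *
        (iteratedDeriv k F δ - iteratedDeriv k F (1 - δ)) with hR
  refine ⟨-(1 / 2) * R, ?_, ?_⟩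
  · rw [norm_mul]
    have : ‖(-(1 / 2) : ℂ)‖ ≤ 1 := by
      rw [norm_neg, norm_div, norm_one, Complex.norm_ofNat]
      norm_num
    calc ‖(-(1 / 2) : ℂ)‖ * ‖R‖ ≤ 1 * ‖R‖ := mul_le_mul_of_nonneg_right this (norm_nonneg _)
      _ ≤ _ := by rw [one_mul]; exact hDest
  · rw [hlhs]
    congr 1
    have hsum : ∑ k ∈ range (K + 1), sg b k δ / (N : ℂ) ^ k =
        -(1 / 2) * (∑ k ∈ range (K + 1), (b k : ℂ) / (N : ℂ) ^ k *
          (iteratedDeriv k F δ - iteratedDeriv k F (1 - δ)) + F δ) := by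
      have e2 : ∀ k ∈ range (K + 1), sg b k δ / (N : ℂ) ^ k = -(1 / 2) * ((b k : ℂ) / (N : ℂ) ^ k *
          (iteratedDeriv k F δ - iteratedDeriv k F (1 - δ))) +
          (if k = 0 then -(1 / 2) * F δ else 0) := by
        intro k _
        unfold sg
        by_cases hk : k = 0
        · subst hk
          simp only [if_true, pow_zero, div_one]
          ring
        · simp only [hk, if_false]
          ring
      rw [Finset.sum_congr rfl e2, Finset.sum_add_distrib, ← Finset.mul_sum,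
        Finset.sum_ite_eq' (range (K + 1)) 0, if_pos (Finset.mem_range.2 (Nat.succ_pos K))]
      ring
    rw [hsum, hlf, hR, hLr]
    ring

/-- **SDX** -/
theorem sdx : Pool.Agent.Y472.K.S_SDX := by
  obtain ⟨b, hb⟩ := Pool.Agent.W571.FE.em 1 zero_le_one le_rfl
  refine ⟨Lx, fun δ h0 h1 => ⟨Lx_ana (real_mem_U h0 h1), Lx_real h0 h1⟩, sg b,
    fun k δ h0 h1 => sg_ana b k (real_mem_U h0 h1), fun δ₀ h0 h1 K => ?_⟩
  obtain ⟨C, hC⟩ := expo b δ₀ h0 h1 K (key b hb δ₀ h0 h1 (K + 1))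
  -- bound of the coefficient
  obtain ⟨B, hB⟩ := (isCompact_Icc (a := δ₀) (b := 1 - δ₀)).exists_bound_of_continuousOn
    (f := fun x : ℝ => sg b K x) (fun x hx => by
      have h3 : ContinuousAt (fun x : ℝ => sg b K x) x :=
        (sg_ana b K (real_mem_U (lt_of_lt_of_le h0 hx.1)
          (lt_of_le_of_lt hx.2 (by linarith)))).continuousAt.comp
          Complex.continuous_ofReal.continuousAt
      exact h3.continuousWithinAt)
  refine ⟨B + |C|, ?_⟩
  filter_upwards [eventually_ge_atTop ⌈8 / δ₀⌉₊] with N hN m hm hm'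
  have hN' : 8 / δ₀ ≤ (N : ℝ) := (Nat.le_ceil _).trans (by exact_mod_cast hN)
  have h8 : 1 ≤ 8 / δ₀ := by rw [le_div_iff₀ h0]; linarith
  have hN1 : (1 : ℝ) ≤ N := h8.trans hN'
  have hNpos : (0 : ℝ) < N := by linarith
  obtain ⟨e, he, heq⟩ := hC N hN' m hm hm'
  refine ⟨sg b K ((m : ℂ) / N) / (N : ℂ) ^ K + e, ?_, ?_⟩
  · have h2 : ‖sg b K ((m : ℂ) / N) / (N : ℂ) ^ K‖ ≤ B / (N : ℝ) ^ K := by
      rw [norm_div, norm_pow, Complex.norm_natCast]
      refine div_le_div_of_nonneg_right ?_ (by positivity)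
      have h3 := hB ((m : ℝ) / N) ⟨by rw [le_div_iff₀ hNpos]; exact hm,
        by rw [div_le_iff₀ hNpos]; exact hm'⟩
      have e1 : (((m : ℝ) / N : ℝ) : ℂ) = (m : ℂ) / N := by push_cast; rfl
      rw [← e1]
      exact h3
    have h4 : ‖e‖ ≤ |C| / (N : ℝ) ^ K := by
      refine he.trans ?_
      calc C / (N : ℝ) ^ (K + 1) ≤ |C| / (N : ℝ) ^ (K + 1) :=
            div_le_div_of_nonneg_right (le_abs_self C) (by positivity)
        _ ≤ |C| / (N : ℝ) ^ K :=
            div_le_div_of_nonneg_left (abs_nonneg C) (by positivity)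
              (pow_le_pow_right₀ hN1 (Nat.le_succ K))
    rw [add_div]
    exact (norm_add_le _ _).trans (add_le_add h2 h4)
  · rw [heq, Finset.sum_range_succ]
    congr 1
    ring

end Pool.Agent.Y297.TKX
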